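import Pool.Agent.H.MP_38bcdd_an.B

namespace Pool.Agent.Results.MP_38bcdd_an.No
open scoped InnerProductSpace
open MeasureTheory Set FourierTransform

/-- Riesz basis: complete, with two-sided bounds on finite combinations. -/
def Riesz {E J : Type} [NormedAddCommGroup E] [InnerProductSpace ℂ E] (f : J → E) : Prop :=
  (Submodule.span ℂ (range f)).topologicalClosure = ⊤ ∧ ∃ A B : ℝ, 0 < A ∧ 0 < B ∧
    ∀ (s : Finset J) (c : J → ℂ), A * ∑ j ∈ s, ‖c j‖ ^ 2 ≤ ‖∑ j ∈ s, c j • f j‖ ^ 2 ∧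
      ‖∑ j ∈ s, c j • f j‖ ^ 2 ≤ B * ∑ j ∈ s, ‖c j‖ ^ 2

/-- Not an orthogonal system. -/
def NonOrth {E J : Type} [NormedAddCommGroup E] [InnerProductSpace ℂ E] (f : J → E) : Prop :=
  ∃ p q, p ≠ q ∧ ⟪f p, f q⟫_ℂ ≠ 0

noncomputable abbrev L2 : Type := Lp ℂ 2 (volume : Measure ℝ)

/-- The Fourier transform of `ψ` is the indicator of `Ω`. -/
def IsWav (ψ : L2) (Ω : Set ℝ) : Prop := (𝓕 ψ : L2) =ᵐ[volume] Ω.indicator 1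

/-- `g x = |a|^(1/2) ψ (a x - l)` almost everywhere. -/
def IsDil (ψ : L2) (l a : ℝ) (g : L2) : Prop :=
  g =ᵐ[volume] fun x => ((√|a| : ℝ) : ℂ) * ψ (a * x - l)

/-- Multiplicative tiling of multiplicity `k`. -/
def Tiles (A Ω : Set ℝ) (k : ℕ) : Prop := ∀ᵐ ξ : ℝ, {a ∈ A | ξ ∈ (a * ·) '' Ω}.encard = k

theorem result : ∃ (A : Set ℝ) (Ω Λ : Fin 3 → Set ℝ) (ψ : Fin 3 → L2)
    (f : {q : Fin 3 × ℝ × ℝ // q.2.1 ∈ Λ q.1 ∧ q.2.2 ∈ A} → L2),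
    (A.Countable ∧ 0 ∉ A) ∧ (∀ i, (Λ i).Countable) ∧
    (∀ i, MeasurableSet (Ω i) ∧ 0 < volume (Ω i) ∧ volume (Ω i) < ⊤) ∧
    Pairwise (fun i j => Disjoint (Ω i) (Ω j)) ∧ (∀ i, IsWav (ψ i) (Ω i)) ∧
    (∀ q, IsDil (ψ q.1.1) q.1.2.1 q.1.2.2 (f q)) ∧
    Riesz f ∧ NonOrth f ∧ ∀ k : ℕ, ¬ Tiles A (⋃ i, Ω i) k :=
  H.MP_38bcdd_an.main

end Pool.Agent.Results.MP_38bcdd_an.No
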